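import Pool.Agent.H.MP_950aae_pr.Geo

namespace Pool.Agent.Results.MP_950aae_pr.Yes

open Real Pool.Agent.H.MP_950aae_pr

lemma params (k : ℕ) (hk : 7 ≤ k) : ∃ h L : ℝ, h * (1 - cos (2 * π / k)) = cos (2 * π / k) ∧
    ∀ (ε : ℝ) v, (ε = 1 ∨ ε = -1) → Cone h L v →
      Cone h L (rotF (-ε * ((k / 2 + 1 : ℕ) * (2 * π / k))) (flipF h v)) ∧
      0 < ε * (rotF (-ε * ((k / 2 + 1 : ℕ) * (2 * π / k))) (flipF h v)).2.2 := by
  have hk' : (7 : ℝ) ≤ k := by exact_mod_cast hk
  have hπ := pi_pos
  have hπ' := pi_lt_d2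
  set θ := 2 * π / k with hθ
  have θ0 : 0 < θ := by positivity
  have θ1 : θ ≤ 9 / 10 := by rw [hθ, div_le_iff₀ (by linarith)]; nlinarith
  have hs : 0 < sin θ := sin_pos_of_pos_of_lt_pi θ0 (by linarith [pi_gt_three])
  have hsc := sin_sq_add_cos_sq θ
  have hc := one_sub_sq_div_two_le_cos (x := θ)
  have c0 : 59 / 100 ≤ cos θ := by nlinarith
  have c1 : cos θ < 1 := by nlinarith
  set h := cos θ / (1 - cos θ) with hh
  have e : h * (1 - cos θ) = cos θ := by rw [hh, div_mul_cancel₀ _ (by linarith)]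
  have h0 : 143 / 100 ≤ h := by rw [hh, le_div_iff₀ (by linarith)]; linarith
  have key : ∀ δ L m : ℝ, (k / 2 + 1 : ℕ) * θ = δ + π → 0 < L → 0 < m →
      1 ≤ m * ((7 / 10 + 1 / L) * h) → 0 ≤ cos δ → 0 ≤ sin δ → m * cos δ < sin δ →
      m * (cos δ + L * sin δ) ≤ L * cos δ - sin δ → ∃ h L : ℝ, h * (1 - cos θ) = cos θ ∧
      ∀ (ε : ℝ) v, (ε = 1 ∨ ε = -1) → Cone h L v →
        Cone h L (rotF (-ε * ((k / 2 + 1 : ℕ) * θ)) (flipF h v)) ∧
        0 < ε * (rotF (-ε * ((k / 2 + 1 : ℕ) * θ)) (flipF h v)).2.2 := by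
    intro δ L m e1 a1 a2 a3 a4 a5 a6 a7
    refine ⟨h, L, e, fun ε v hε hv => pingpong h0 a1 a2 a3 a4 a5 a6 a7 (sin_sq_add_cos_sq δ) hε
      ?_ ?_ hv⟩ <;> rw [e1] <;> rcases hε with rfl | rfl <;> simp [add_comm, cos_add, sin_add]
  rcases Nat.even_or_odd' k with ⟨i, rfl | rfl⟩
  · have hi : (4 : ℝ) ≤ i := by exact_mod_cast (by omega : 4 ≤ i)
    have θ2 : θ ≤ 315 / 400 := by
      rw [hθ, div_le_iff₀ (by linarith)]; push_cast; nlinarith
    have c2 : 689 / 1000 ≤ cos θ := by nlinarith
    have h2 : 221 / 100 ≤ h := by rw [hh, le_div_iff₀ (by linarith)]; linarith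
    have s2 : sin θ ≤ 725 / 1000 := by nlinarith
    have m2 : 1 / h ≤ 100 / 221 := by rw [div_le_iff₀ (by linarith)]; linarith
    refine key θ 3 (1 / h) ?_ (by norm_num) (by positivity) ?_ (by linarith) hs.le ?_ ?_
    · rw [show 2 * i / 2 = i by omega, hθ]; push_cast; field_simp; ring
    · field_simp; norm_num
    · rw [one_div, inv_mul_lt_iff₀ (by linarith)]
      have : 1 - cos θ < sin θ := by nlinarith
      nlinarith
    · nlinarith
  · have hC : 0 < cos (θ / 2) := cos_pos_of_mem_Ioo ⟨by linarith, by linarith [pi_gt_three]⟩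
    have hS : 0 < sin (θ / 2) := sin_pos_of_pos_of_lt_pi (by linarith) (by linarith [pi_gt_three])
    have d1 : cos θ = 2 * cos (θ / 2) ^ 2 - 1 := by rw [← cos_two_mul]; ring_nf
    have d2 : sin θ = 2 * sin (θ / 2) * cos (θ / 2) := by rw [← sin_two_mul]; ring_nf
    have d3 := sin_sq_add_cos_sq (θ / 2)
    have C1 : 89 / 100 ≤ cos (θ / 2) := by nlinarith
    have S1 : sin (θ / 2) ≤ 453 / 1000 := by nlinarith
    have m2 : 20 / 29 / h ≤ 483 / 1000 := by rw [div_le_iff₀ (by linarith)]; linarith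
    refine key (θ / 2) (4 / 3) (20 / 29 / h) ?_ (by norm_num) (by positivity) ?_ hC.le hS.le ?_ ?_
    · rw [show (2 * i + 1) / 2 = i by omega, hθ]; push_cast; field_simp; ring
    · field_simp; norm_num
    · rw [div_mul_eq_mul_div, div_lt_iff₀ (by linarith), hh, mul_div_assoc',
        lt_div_iff₀ (by linarith)]
      have s3 : sin θ < 29 / 20 * cos θ := by nlinarith
      have : 1 - cos θ = 2 * sin (θ / 2) ^ 2 := by linarith
      rw [this]; nlinarith
    · nlinarith

theorem result (k : ℕ) (hk : 7 ≤ k) :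
    0 < P (pbt (Tri k)) (Tri k).edgeSet (TreeEvent (Tri k)) := by
  classical
  set x : Gam k := PresentedGroup.of true with hx
  set y : Gam k := PresentedGroup.of false with hy
  have hxk : x ^ k = 1 := by
    have := PresentedGroup.one_of_mem (rels := rels k) (x := FreeGroup.of true ^ k) (by simp [rels])
    rwa [map_pow] at this
  have hy2 : y * y = 1 := by
    have := PresentedGroup.one_of_mem (rels := rels k) (x := FreeGroup.of false ^ 2) (by simp [rels])
    rwa [map_pow, pow_two] at this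
  have : Countable (Gam k) := (PresentedGroup.mk_surjective (rels k)).countable
  have : Countable (Vert k) := QuotientGroup.mk_surjective.countable
  have hnb : ∀ g : Gam k, (Tri k).neighborSet (QuotientGroup.mk g) ⊆
      ((Finset.range k).image fun i => (QuotientGroup.mk (g * x ^ i * y) : Vert k)) := by
    intro g v hv
    obtain ⟨g', h1, rfl⟩ : ∃ g' : Gam k, (QuotientGroup.mk g : Vert k) = QuotientGroup.mk g' ∧
        v = QuotientGroup.mk (g' * y) := by
      rcases hv.2 with h | ⟨g', h1, h2⟩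
      · exact h
      · exact ⟨g' * y, h2, by rw [mul_assoc, hy2, mul_one]; exact h1⟩
    have h2 := QuotientGroup.eq.1 h1
    rw [← (isOfFinOrder_iff_pow_eq_one.2 ⟨k, by omega, hxk⟩).mem_powers_iff_mem_zpowers] at h2
    obtain ⟨n, hn⟩ := h2
    simp only [Finset.coe_image, Finset.coe_range, Set.mem_image, Set.mem_Iio]
    refine ⟨n % k, Nat.mod_lt _ (by omega), ?_⟩
    rw [← pow_eq_pow_mod n hxk, show x ^ n = g⁻¹ * g' from hn, mul_inv_cancel_left]
  obtain ⟨h, L, e, hp⟩ := params k hk
  let ρ : Gam k →* Equiv.Perm R3 := PresentedGroup.toGroup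
    (f := fun b => if b then rot (2 * π / k) else flp h) (by
      rintro r (rfl | rfl | rfl)
      · simp only [map_pow, FreeGroup.lift_apply_of, if_true, rot_pow]
        ext1 v
        have : (k : ℝ) * (2 * π / k) = 2 * π := by
          have : (k : ℝ) ≠ 0 := by exact_mod_cast (by omega : k ≠ 0)
          field_simp
        simp [this, rot, rotF]
      · ext1 v
        simp only [pow_two]
        exact flipF_inv h v
      · simpa using cube e)
  have ρx : ρ x = rot (2 * π / k) := PresentedGroup.toGroup.of _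
  have ρy : ρ y = flp h := PresentedGroup.toGroup.of _
  let r : Bool → Gam k := fun b => if b then (x ^ (k / 2 + 1))⁻¹ else x ^ (k / 2 + 1)
  have hr : ∀ b, r b ∈ Subgroup.zpowers x := by
    rintro (_ | _)
    · exact Subgroup.pow_mem _ (Subgroup.mem_zpowers x) _
    · exact Subgroup.inv_mem _ (Subgroup.pow_mem _ (Subgroup.mem_zpowers x) _)
  have hfree := free (h := h) (L := L) (fun b => ρ (r b * y)) (by
    rintro (_ | _) v hv
    · simp only [r, map_mul, map_pow, ρx, ρy, rot_pow, Bool.false_eq_true, if_false]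
      simpa [rot, flp] using hp (-1) v (Or.inr rfl) hv
    · simp only [r, map_mul, map_pow, map_inv, ρx, ρy, rot_pow, if_true]
      simpa [rot, flp] using hp 1 v (Or.inl rfl) hv)
  let t : List Bool → Vert k := fun w => QuotientGroup.mk (w.reverse.map fun b => r b * y).prod
  have t1 : Function.Injective t := by
    intro a b hab
    obtain ⟨n, hn⟩ := QuotientGroup.eq.1 hab
    have fx : (ρ x ^ n) (1, 0, 0) = (1, 0, 0) :=
      Equiv.Perm.zpow_apply_eq_self_of_apply_eq_self (by simp [ρx, rot, rotF]) n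
    apply List.reverse_injective
    apply hfree
    have e2 := congrArg (fun g => ρ g (1, 0, 0)) (eq_inv_mul_iff_mul_eq.1 hn)
    simp only [map_mul, map_zpow, Equiv.Perm.mul_apply, map_list_prod, List.map_map] at e2
    rw [fx] at e2
    exact e2
  refine perc k (fun v => ?_) (fun v => ?_) (QuotientGroup.mk 1) (fun v => ?_) t t1 fun w b => ?_
  · obtain ⟨g, rfl⟩ := QuotientGroup.mk_surjective v
    exact (Finset.finite_toSet _).subset (hnb g)
  · obtain ⟨g, rfl⟩ := QuotientGroup.mk_surjective v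
    refine (Set.ncard_le_ncard (hnb g) (Finset.finite_toSet _)).trans ?_
    rw [Set.ncard_coe_finset]
    exact Finset.card_image_le.trans (by simp)
  · obtain ⟨g, rfl⟩ := QuotientGroup.mk_surjective v
    have key : ∀ (g : Gam k) (u v : Vert k), (∃ a : Gam k, u = QuotientGroup.mk a ∧
        v = QuotientGroup.mk (a * y)) → ∃ a : Gam k, g • u = QuotientGroup.mk a ∧
        g • v = QuotientGroup.mk (a * y) := by
      rintro g _ _ ⟨a, rfl, rfl⟩
      exact ⟨g * a, rfl, by rw [mul_assoc]; rfl⟩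
    have key2 : ∀ (u v : Vert k), (∃ a : Gam k, g • u = QuotientGroup.mk a ∧
        g • v = QuotientGroup.mk (a * y)) ↔ ∃ a : Gam k, u = QuotientGroup.mk a ∧
        v = QuotientGroup.mk (a * y) := fun u v =>
      ⟨fun h => by simpa using key g⁻¹ _ _ h, key g u v⟩
    refine ⟨⟨MulAction.toPerm g, fun {u v} => ?_⟩, by simp⟩
    simp only [Tri, SimpleGraph.fromRel_adj, MulAction.toPerm_apply, ne_eq, smul_left_cancel_iff]
    rw [key2, key2]
  · refine ⟨fun h => by simpa using congrArg List.length (t1 h), Or.inl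
      ⟨(w.reverse.map fun b => r b * y).prod * r b, ?_, ?_⟩⟩
    · exact QuotientGroup.eq.2 (by simpa using hr b)
    · simp [t, mul_assoc, hy]

end Pool.Agent.Results.MP_950aae_pr.Yes
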